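import Mathlib
import Pool.Agent.H9.DC.Count

set_option autoImplicit false

/-!
# Convex `d`-polytopes with `d - 2` flag orbits: `N_k ≥ k + 3`

The half cube (the convex hull of the vertices of the cube `[-1, 1]^d` with an even number of
coordinates `-1`) has, for `d ≥ 5`, exactly `d - 2` orbits of flags under its symmetry group.
So a geometrically `k`-orbit convex polytope exists in dimension `k + 2`, for every `k ≥ 3`, and
`N_k ≥ k + 3`.

Proof. The nonempty proper faces of the half cube are the simplices spanned by neighbours of a
missing vertex of the cube and the smaller half cubes. Along a flag the faces are simplices up to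
some rank `t - 1`, `3 ≤ t ≤ d`, and then half cubes. Two flags with the same `t` are related by a signed
permutation of the coordinates with an even number of sign changes. For `d ≥ 5` the simplices (also those
of dimension three) are distinguished from the half cubes by the order structure: they are the
faces contained in a facet any two vertices of which are joined by an edge. So `t` is an invariant.
-/

namespace Pool.Agent.Results.MP_727bc7_co.HalfCubes

open Pool.Agent.H9.DC

/-- (1) For every `d ≥ 5` there is a convex `d`-polytope with exactly `d - 2` orbits of flags under its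
symmetry group. (2) If every convex `d`-polytope with exactly `k ≥ 3` flag orbits, for any `d`,
satisfies `d < N`, then `N ≥ k + 3`. -/
theorem result :
    (∀ d : ℕ, 5 ≤ d → ∃ Q : Set (E d), IsPolytope Q ∧ geomOrbits Q = d - 2) ∧
    (∀ k N : ℕ, 3 ≤ k →
      (∀ (d : ℕ) (Q : Set (E d)), IsPolytope Q → geomOrbits Q = k → d < N) → k + 3 ≤ N) := by
  have h1 : ∀ d : ℕ, 5 ≤ d → ∃ Q : Set (E d), IsPolytope Q ∧ geomOrbits Q = d - 2 :=
    fun d hd => ⟨P d, isPolytope_P (by omega), geomOrbits_P hd⟩
  refine ⟨h1, fun k N hk h => ?_⟩
  obtain ⟨Q, hQ, hQ2⟩ := h1 (k + 2) (by omega)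
  have := h (k + 2) Q hQ (by rw [hQ2]; omega)
  omega

end Pool.Agent.Results.MP_727bc7_co.HalfCubes
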